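import Pool.Agent.N924.LP.One
import Pool.Agent.N924.LP.Box
import Pool.Agent.N924.LP.SymMain

/-!
# The `Σ`-Leopoldt conjecture for almost all members of families with `d` parameters

For integers `a_1, …, a_d` let `F = ℚ(w)`, `∏ (w - a_i²) = 1`. `Good p a`: the fields `F` and, for every
imaginary quadratic field `k`, fields `K ⊇ F k` exist; every such `F` is totally real of degree `d`; `w` is
neither a square in `F` nor in any totally complex quadratic extension `K` of `F`; and for EVERY totally
complex quadratic extension `K` of `F`, for `H = K(√w)`, the `Σ`-Leopoldt statement holds for the prime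
`p`, for every CM type `S` of `K` with values in `ℂ_p` and every character `χ` of `Gal(H/K)`.

**Theorem.** (1) For every prime `p` and every degree `d ≥ 1` the proportion of the integral points `a`
of the box `|a_i| ≤ N` with `Good p a` tends to one.

(2) Let `z_0(t), z_1(t), z_2(t), …` be an infinite sequence of functions of a positive integer `t` with
integral values, any finite number of which is jointly uniformly distributed modulo all positive
integers `q`, for `t` in given sets `S N ⊆ (N, 2 N]` (`UD`). There is ONE set `E` of density zero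
(relative to the sets `S N`, and also relative to a second system of sets) such that for ALL primes
`p`, ALL degrees `d` and ALL choices of different functions `a_i` among the `z_l`, for all but finitely
many `t` outside `E`: `Good p (a_1(t), …, a_d(t))`.

(3) Examples are `z_l(t) = ⌊P_l(t)⌋` with generalised polynomials `P_l(t) = ∑ a_x t ^ x` with distinct
leading exponents which are positive and not integers and have positive coefficients, along all
integers `t` and along the primes.

The starting results `EveryDegree` and `ManyPrimes` concern families with one integral parameter `t`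
(`a_i t` in place of `a_i`): all but finitely many `t` for one `p`. Here all `a_i` vary independently.

Proof. The field `E = ℚ(θ)`, `θ = √w`, `∏ (θ - a_i)(θ + a_i) = 1`, is totally real of degree `2 d`, and the
statement for `H / K` follows from Leopoldt's conjecture for `E` (Y419.LC, `R89.RQ`, starting library).
On a class modulo `p²` of the parameters `a` the logarithms of the units `θ ± a_i` are power series in `d`
variables over `ℤ_p`. On the line where only `a_1 = T` varies the criterion of the starting library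
(`H33R4`) applies, as the `2 d - 1` units without `θ - T` are independent modulo constants: the curve
`(Y² - T²) P(Y) = 1` has the involution `T ↦ -T`, and on it `(Y + T) / (Y - T)` takes almost all values.
So the parameters with a failure lie in the zero set of a power series `h ≠ 0` in `d` variables; by
Fubini's theorem it has Haar measure zero and is contained in `o(p^{k d})` classes modulo `p^k`. A
diagonal argument gives one set `E`. The uniform distribution in (3) is due to exponential sums of the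
starting library (`Y961.JR`) and helper666.
-/

set_option autoImplicit false

namespace Pool.Agent.Results.MP_fc6b1e_nt.AlmostAllFields

open NumberField Pool.Agent.W289.SL

/-- The `Σ`-Leopoldt statements for the fields `F = ℚ(w)`, `∏ (w - a_i²) = 1`, all totally complex
quadratic extensions `K` of `F` and `H = K(√w)`. -/
def Good (p : ℕ) [Fact p.Prime] {d : ℕ} (a : Fin d → ℤ) : Prop :=
  (∀ (k : Type) [Field k] [NumberField k] [IsTotallyComplex k], Module.finrank ℚ k = 2 →
    ∃ (F K : Type) (_ : Field F) (_ : NumberField F) (_ : Field K) (_ : NumberField K)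
      (_ : IsTotallyComplex K) (_ : Algebra F K) (_ : Algebra k K) (w : F),
      Module.finrank F K = 2 ∧ ∏ i, (w - ((a i : ℤ) : F) ^ 2) = 1 ∧
        IntermediateField.adjoin ℚ {w} = ⊤) ∧
  ∀ (F : Type) [Field F] [NumberField F] (w : F),
    ∏ i, (w - ((a i : ℤ) : F) ^ 2) = 1 → IntermediateField.adjoin ℚ {w} = ⊤ →
    Module.finrank ℚ F = d ∧ IsTotallyReal F ∧ ¬ IsSquare w ∧
    ∀ (K : Type) [Field K] [NumberField K] [IsTotallyComplex K] [Algebra F K],
      Module.finrank F K = 2 → ¬ IsSquare (algebraMap F K w) ∧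
      ∀ (H : Type) [Field H] [NumberField H] [Algebra K H] (θ : H),
        Module.finrank K H = 2 → θ ^ 2 = algebraMap K H (algebraMap F K w) →
        ∀ S : Set (K →+* ℂ_[p]), IsCMType p F K S →
          ∀ χ : (H ≃ₐ[K] H) →* ℂ_[p]ˣ, SigmaLeopoldt p K H S χ

/-- The box `|a_i| ≤ N`. -/
def Box (d N : ℕ) : Set (Fin d → ℤ) := {a | ∀ i, |a i| ≤ N}

/-- The sets `S N ⊆ (N, 2 N]` along which densities are considered. -/
def Scheme (S : ℕ → Finset ℕ) : Prop := ∀ N, S N ⊆ Finset.Ioc N (2 * N)

/-- `E` has density zero relative to the sets `S N`. -/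
def NullIn (S : ℕ → Finset ℕ) (E : Set ℕ) : Prop :=
  ∀ ε : ℝ, 0 < ε → ∃ N₀ : ℕ, ∀ N : ℕ, N₀ ≤ N →
    ({t : ℕ | t ∈ S N ∧ t ∈ E}.ncard : ℝ) ≤ ε * (S N).card

/-- Any finite number of the functions `z l` is jointly uniformly distributed modulo all `q`, for `t`
in the sets `S N`, `N → ∞`. -/
def UD (S : ℕ → Finset ℕ) (z : ℕ → ℕ → ℤ) : Prop :=
  ∀ (r : ℕ) (σ : Fin r → ℕ), Function.Injective σ → ∀ q : ℕ, 1 ≤ q → ∀ ρ : Fin r → ℤ,
    Filter.Tendsto
      (fun N => ({t : ℕ | t ∈ S N ∧ ∀ i, (q : ℤ) ∣ z (σ i) t - ρ i}.ncard : ℝ) / (S N).card)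
      Filter.atTop (nhds (1 / (q : ℝ) ^ r))

/-- `c` is the largest exponent of the generalised polynomial `∑ a_x t ^ x`; it is positive and not an
integer and has a positive coefficient. -/
def Admissible (F : Finset ℝ) (a : ℝ → ℝ) (c : ℝ) : Prop :=
  c ∈ F ∧ (∀ x ∈ F, x ≤ c) ∧ 0 < c ∧ (∀ m : ℕ, c ≠ m) ∧ 0 < a c

/-- The integer part of the value at `t` of the generalised polynomial `P_l`. -/
noncomputable def value (F : ℕ → Finset ℝ) (a : ℕ → ℝ → ℝ) (l t : ℕ) : ℤ :=
  ⌊∑ x ∈ F l, a l x * (t : ℝ) ^ x⌋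

theorem good_of (p : ℕ) [Fact p.Prime] {d : ℕ} (hd : 1 ≤ d) (a : Fin d → ℤ)
    (h : Pool.Agent.N924.LP.HoldsS p a) : Good p a := by
  obtain ⟨hfar, hL⟩ := h
  have hE := hfar.gapE
  have hG := hfar.gapF
  refine ⟨?_, ?_⟩
  · intro k _ _ _ hk
    obtain ⟨F, K, i1, i2, i3, i4, i5, i6, w, h1, h2, h3⟩ :=
      Pool.Agent.Y789.SG.exists_fields (k := k) hk d hd (fun i => (a i) ^ 2)
        (fun i j hij => (by norm_num : (2 : ℤ) ≤ 3).trans (hG i j hij))
    refine ⟨F, K, i1, i2, i3, i4, NumberField.isTotallyComplex_of_algebra k K, i5, i6, w,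
      h1, ?_, h3⟩
    rw [← h2]
    refine Finset.prod_congr rfl fun i _ => ?_
    push_cast
    rfl
  · intro F _ _ w hw hgen
    obtain ⟨h1, h2⟩ := Pool.Agent.N924.LP.SG.F_deg hd a hG F w hw hgen
    refine ⟨h1, h2, Pool.Agent.N924.LP.SG.not_sq_F hd a hE hG F w hw hgen, ?_⟩
    intro K _ _ _ _ hFK
    refine ⟨Pool.Agent.N924.LP.SG.not_sq_K hd a hE hG F w hw hgen K hFK, ?_⟩
    intro H _ _ _ θ hKH hθ S hS χ
    exact Pool.Agent.N924.LP.SG.sigma_of hd a hE hG p hL F w hw hgen K hFK H θ hKH hθ S hS χ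

/-- **The `Σ`-Leopoldt conjecture for almost all members of families with `d` parameters.** (1) in
boxes; (2) one null set for all degrees, all primes and all choices among the functions `z l`;
(3) the integer parts of generalised polynomials are examples, along the integers and along the
primes. -/
theorem result :
    (∀ (p : ℕ) [Fact p.Prime] (d : ℕ), 1 ≤ d → ∀ ε : ℝ, 0 < ε → ∃ N₀ : ℕ, ∀ N : ℕ,
      N₀ ≤ N → ({a | a ∈ Box d N ∧ ¬ Good p a}.ncard : ℝ) ≤ ε * (Box d N).ncard) ∧
    (∀ S₁ S₂ : ℕ → Finset ℕ, Scheme S₁ → Scheme S₂ → ∀ z : ℕ → ℕ → ℤ, UD S₁ z → UD S₂ z →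
      ∃ E : Set ℕ, NullIn S₁ E ∧ NullIn S₂ E ∧
        ∀ (p : ℕ) [Fact p.Prime] (d : ℕ), 1 ≤ d → ∀ σ : Fin d → ℕ, Function.Injective σ →
          {t : ℕ | t ∉ E ∧ ¬ Good p (fun i => z (σ i) t)}.Finite) ∧
    ∀ (F : ℕ → Finset ℝ) (a : ℕ → ℝ → ℝ) (c : ℕ → ℝ), (∀ l, Admissible (F l) (a l) (c l)) →
      Function.Injective c → UD (fun N => Finset.Ioc N (2 * N)) (value F a) ∧
        UD (fun N => (Finset.Ioc N (2 * N)).filter Nat.Prime) (value F a) := by
  classical
  refine ⟨?_, ?_, fun F a c h hc => Pool.Agent.N924.TH.ud_fl h hc⟩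
  · intro p _ d hd ε hε
    have hbox : ∀ N, Box d N =
        ↑(Fintype.piFinset fun _ : Fin d => Finset.Ioc (-(N : ℤ) - 1) (N : ℤ)) := by
      intro N
      ext x
      rw [Finset.mem_coe, Fintype.mem_piFinset]
      simp only [Box, Set.mem_ofPred_eq, Finset.mem_Ioc]
      constructor
      · intro h i
        have := abs_le.1 (h i)
        constructor <;> linarith
      · intro h i
        have := h i
        rw [abs_le]
        constructor <;> linarith
    have hlim : ∀ _ : Fin d, Filter.Tendsto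
        (fun N : ℕ => (((N : ℤ) : ℝ) - ((-(N : ℤ) - 1 : ℤ) : ℝ))) Filter.atTop Filter.atTop := by
      intro i
      refine Filter.tendsto_atTop_mono (f := fun N : ℕ => (N : ℝ)) (fun N => ?_)
        tendsto_natCast_atTop_atTop
      have h0 : (0 : ℝ) ≤ N := by positivity
      push_cast
      linarith
    have hmain := Pool.Agent.N924.LP.mainS _ p hd _
      (Pool.Agent.N924.LP.eqd_box (κ := Fin d) (fun _ N => -(N : ℤ) - 1) (fun _ N => (N : ℤ)) hlim)
    obtain ⟨N₀, hN₀⟩ := hmain ε hε
    refine ⟨N₀, fun N hN => ?_⟩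
    have h1 := hN₀ N hN
    have hsub : {a | a ∈ Box d N ∧ ¬ Good p a} ⊆ {t : Fin d → ℤ |
        t ∈ (Fintype.piFinset fun _ : Fin d => Finset.Ioc (-(N : ℤ) - 1) (N : ℤ)) ∧
        t ∈ {t | ¬ Pool.Agent.N924.LP.HoldsS p t}} := by
      rintro x ⟨h2, h3⟩
      refine ⟨?_, fun h => h3 (good_of p hd x h)⟩
      rw [← Finset.mem_coe, ← hbox N]
      exact h2
    have h2 := Set.ncard_le_ncard hsub ((Finset.finite_toSet _).subset fun x hx => hx.1)
    rw [hbox N, Set.ncard_coe_finset]
    rw [hbox N] at h2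
    refine le_trans ?_ h1
    exact_mod_cast h2
  · intro S₁ S₂ hS₁ hS₂ z hz₁ hz₂
    let D : Type := Σ d : {p : ℕ // p.Prime} × ℕ, (Fin d.2 → ℕ)
    let Q : D → Prop := fun d => 1 ≤ d.1.2 ∧ Function.Injective d.2
    let B : D → Set ℕ := fun d =>
      haveI : Fact (d.1.1 : ℕ).Prime := ⟨d.1.1.2⟩
      if Q d then {t : ℕ | ¬ Pool.Agent.N924.LP.HoldsS (d.1.1 : ℕ) (fun i => z (d.2 i) t)} else ∅
    have hB : ∀ S : ℕ → Finset ℕ, UD S z → ∀ d, Pool.Agent.N924.LP.Nul S (B d) := by
      intro S hz d
      haveI : Fact (d.1.1 : ℕ).Prime := ⟨d.1.1.2⟩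
      by_cases hd : Q d
      · have h1 := Pool.Agent.N924.LP.mainS S (d.1.1 : ℕ) hd.1 _
          (Pool.Agent.N924.LP.ud_eqd hz d.2 hd.2)
        refine h1.mono ?_
        intro t ht
        simp only [B, if_pos hd] at ht
        exact ht
      · intro ε hε
        refine ⟨0, fun N _ => ?_⟩
        have e1 : {t : ℕ | t ∈ S N ∧ t ∈ B d} = ∅ := by
          ext t
          simp [B, if_neg hd]
        rw [e1, Set.ncard_empty]
        push_cast
        positivity
    obtain ⟨E, h1, h2, h3⟩ := Pool.Agent.N924.LP.one_set B hS₁ hS₂ (hB S₁ hz₁) (hB S₂ hz₂)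
    refine ⟨E, h1, h2, ?_⟩
    intro p hp d hd σ hσ
    refine (h3 ⟨(⟨p, hp.out⟩, d), σ⟩).subset ?_
    rintro t ⟨ht, hbad⟩
    refine ⟨ht, ?_⟩
    have hQ : Q ⟨(⟨p, hp.out⟩, d), σ⟩ := ⟨hd, hσ⟩
    simp only [B, if_pos hQ]
    exact fun h => hbad (good_of p hd _ h)

end Pool.Agent.Results.MP_fc6b1e_nt.AlmostAllFields
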