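import Mathlib
import Pool.Agent.N848.OL.Fin

/-!
# The `Σ`-Leopoldt conjecture at `p` for all CM fields over composites `k A`, `A` real abelian

Let `p` be a prime and `k` a totally real number field (Galois or not) of degree prime to `p`, such
that

* an element of `k` which at every prime is a unit congruent to `1` modulo `p ^ 2`, up to `p`-th
  powers, is a `p`-th power (for `p = 2` by Kummer theory: no quadratic extension of `k` is
  unramified at all finite primes; for odd `p` the condition at the primes above `p` says that the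
  element is a local `p`-th power, and the condition says that the group `V` of Shafarevich is
  trivial);
* for `p = 2` there is only one prime of `k` above `2`;
* for odd `p` no ramification index above `p` is divisible by `p - 1` (then `k` is `p`-rational).

Let `A / ℚ` be a totally real, possibly infinite, abelian extension, all of whose finite
subextensions have `p`-power degree (for odd `p` such a field is always totally real), and such that
every prime number `q ≠ p` is unramified in `A` or has only one prime of `k` above it.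

(1) Let `F` and `L` be arbitrary number fields contained in `k A`, `K` a totally complex quadratic
extension of `F`, `S` a CM type of `K` with values in `ℂ_p` and `χ` a character of `Gal(K L / K)`.
Then the `Σ`-Leopoldt statement holds: the map `x ↦ (log σ(x))_σ`, where `σ` runs through the
embeddings of `K L` over `S`, is injective on the `χ`-part of `ℂ_p ⊗ 𝓞_{K L}^×`.

(2) If the degree of `k` is a prime which does not divide `p - 1`, there are infinitely many primes
`q` congruent to `1` modulo `p` with only one prime of `k` above them (so that `A` may be ramified at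
all of them).

(3) For `p = 2` the theorem holds for all number fields `F`, `L` contained in the field generated
over `k` by the square roots of all positive integers whose prime divisors have only one prime of `k`
above them.

(4) The field generated by a root of `X³ - X² - 3 X + 1` is an example of such a field `k` for
`p = 2` and for `p = 5`. It is cubic, totally real and not Galois over `ℚ`.

Proof. A complex conjugation acts trivially on the units of the CM field `K L`, up to roots of unity,
so that the statement follows from Leopoldt's conjecture at `p` for the real field `F L ⊆ k A`. This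
is proved in MP_5f2860_nt.CompositesAtEveryPrime: all relative units of `k F₀ / F₀`, `F₀ ⊆ A` finite,
which are close to `1` are `p`-th powers of relative units close to `1`, and Leopoldt's conjecture
for `F₀` is the theorem of Ax and Brumer.

The parts were proved together with helpers 18, 31, 34, 59, 75, 111, 118, 135, 136, 186, 218, 280,
281, 285, 288, 327, 328, 340, 356, 359, 371, 402, 409, 413, 458, 507, 527, 592, 655, 664, 667, 692,
700, 706, 707, 720, 727, 733, 806, 850, 899, 942, 950, 966 and 971; the passage from real fields to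
CM fields is from the starting library.
-/

set_option autoImplicit false

namespace Pool.Agent.Results.MP_fc6b1e_nt.RealCompositesAtEveryPrime

open NumberField IsDedekindDomain Module

/-- The prime number `q` is unramified in the (possibly infinite) algebraic extension `E` of `ℚ`:
`(q)` is a radical ideal of the ring of the algebraic integers of `E`. -/
def Unramified (E : Type) [Field E] (q : ℕ) : Prop := (Ideal.span {(q : 𝓞 E)}).IsRadical

/-- There is only one prime of `E` above the prime number `q`. -/
def Nonsplit (E : Type) [Field E] (q : ℕ) : Prop :=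
  ∀ P P' : Ideal (𝓞 E), P.IsPrime → P'.IsPrime → (q : 𝓞 E) ∈ P → (q : 𝓞 E) ∈ P' → P = P'

/-- The condition on the ramification of `A / ℚ`: every ramified prime different from `p` has only
one prime of `k` above it. -/
def Admissible (p : ℕ) (k A : Type) [Field k] [Field A] : Prop :=
  ∀ q : ℕ, q.Prime → q ≠ p → Unramified A q ∨ Nonsplit k q

/-- An element `b` of `k` which at every prime `v` is a unit congruent to `1` modulo `p ^ 2`, up to
`p`-th powers, is a `p`-th power. -/
def NoPrimary (p : ℕ) (k : Type) [Field k] [NumberField k] : Prop :=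
  ∀ b : k, b ≠ 0 →
    (∀ v : HeightOneSpectrum (𝓞 k), ∃ y : k, v.valuation k (b * y ^ p) = 1 ∧
      v.valuation k (b * y ^ p - 1) ≤ v.valuation k ((p : k) ^ 2)) →
    ∃ y : k, b = y ^ p

/-- No ramification index of `k` above `p` is divisible by `p - 1`. -/
def SmallRamification (p : ℕ) (k : Type) [Field k] [NumberField k] : Prop :=
  ∀ v : HeightOneSpectrum (𝓞 k), (p : 𝓞 k) ∈ v.asIdeal →
    ∀ x : k, v.valuation k x ^ (p - 1) ≠ v.valuation k (p : k)

/-- The hypotheses on the base field `k ⊆ Ω`. -/
def BaseField {Ω : Type} [Field Ω] [CharZero Ω] (p : ℕ) (k : IntermediateField ℚ Ω) : Prop :=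
  ∃ _ : NumberField k, ¬ p ∣ finrank ℚ k ∧ NoPrimary p k ∧ (p = 2 → Nonsplit k 2) ∧
    (p ≠ 2 → SmallRamification p k)

/-- `A / ℚ` is a (possibly infinite) abelian extension, all of whose finite subextensions have
`p`-power degree. -/
def AbelianPro {Ω : Type} [Field Ω] [CharZero Ω] (p : ℕ) (A : IntermediateField ℚ Ω) : Prop :=
  IsGalois ℚ A ∧ (∀ g h : A ≃ₐ[ℚ] A, g * h = h * g) ∧
    ∀ F : IntermediateField ℚ Ω, F ≤ A → FiniteDimensional ℚ F → ∃ r : ℕ, finrank ℚ F = p ^ r

open Pool.Agent.W289.SL in
/-- For every totally complex quadratic extension `K ⊆ Ω` of `F`, every CM type `S` of `K` with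
values in `ℂ_p` and every character `χ` of `Gal(K L / K)` the `Σ`-Leopoldt statement holds: the map
`x ↦ (log_p (σ x))_σ`, where `σ` runs through the embeddings `K L → ℂ_p` whose restriction to `K`
lies in `S`, is injective on the `χ`-part of `ℂ_p ⊗ 𝓞_{K L}^×`. -/
def SigmaLeopoldtAll {Ω : Type} [Field Ω] [CharZero Ω] (F L : IntermediateField ℚ Ω) (p : ℕ)
    [Fact p.Prime] : Prop :=
  ∀ (K : IntermediateField ℚ Ω) (hFK : F ≤ K), FiniteDimensional ℚ K → IsTotallyComplex K →
    finrank ℚ K = 2 * finrank ℚ F → ∃ _ : NumberField ↥(K ⊔ L),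
      letI : Algebra F K := (IntermediateField.inclusion hFK).toRingHom.toAlgebra
      letI : Algebra K ↥(K ⊔ L) :=
        (IntermediateField.inclusion (le_sup_left : K ≤ K ⊔ L)).toRingHom.toAlgebra
      ∀ S : Set (K →+* ℂ_[p]), IsCMType p F K S →
        ∀ χ : (↥(K ⊔ L) ≃ₐ[K] ↥(K ⊔ L)) →* ℂ_[p]ˣ, SigmaLeopoldt p K ↥(K ⊔ L) S χ

/-- **Main result.** -/
theorem result (Ω : Type) [Field Ω] [CharZero Ω] :
    (∀ (p : ℕ) [Fact p.Prime] (k : IntermediateField ℚ Ω), BaseField p k → IsTotallyReal k →
      (∀ A : IntermediateField ℚ Ω, AbelianPro p A → IsTotallyReal A → Admissible p k A →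
        ∀ F L : IntermediateField ℚ Ω, F ≤ k ⊔ A → L ≤ k ⊔ A → FiniteDimensional ℚ F →
          FiniteDimensional ℚ L → SigmaLeopoldtAll F L p) ∧
      ((finrank ℚ k).Prime → ¬ finrank ℚ k ∣ p - 1 →
        {q : ℕ | q.Prime ∧ q % p = 1 ∧ Nonsplit k q}.Infinite)) ∧
    (∀ k : IntermediateField ℚ Ω, BaseField 2 k → IsTotallyReal k →
      ∀ F L : IntermediateField ℚ Ω,
        F ≤ k ⊔ IntermediateField.adjoin ℚ {s : Ω | ∃ t : ℤ, (0 < t ∧
          ∀ q : ℕ, q.Prime → (q : ℤ) ∣ t → Nonsplit k q) ∧ s ^ 2 = (t : Ω)} →
        L ≤ k ⊔ IntermediateField.adjoin ℚ {s : Ω | ∃ t : ℤ, (0 < t ∧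
          ∀ q : ℕ, q.Prime → (q : ℤ) ∣ t → Nonsplit k q) ∧ s ^ 2 = (t : Ω)} →
        FiniteDimensional ℚ F → FiniteDimensional ℚ L → SigmaLeopoldtAll F L 2) ∧
    (∀ α : Ω, α ^ 3 - α ^ 2 - 3 * α + 1 = 0 →
      BaseField 2 (IntermediateField.adjoin ℚ {α}) ∧
      BaseField 5 (IntermediateField.adjoin ℚ {α}) ∧
      finrank ℚ (IntermediateField.adjoin ℚ {α}) = 3 ∧
      IsTotallyReal (IntermediateField.adjoin ℚ {α}) ∧
      ¬ IsGalois ℚ (IntermediateField.adjoin ℚ {α})) :=
  ⟨fun p hp k hk hkr => ⟨fun A hA hAr hq F L hF hL hFf hLf =>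
        Pool.Agent.N848.OL.f2s p k A hk hkr hA hAr hq F L hF hL hFf hLf,
      fun h h' => Pool.Agent.N848.OL.f4 p k h h'⟩,
    fun k hk hkr F L hF hL hFf hLf =>
      Pool.Agent.N848.LT.sig2 Pool.Agent.N848.LT.sqt k (Pool.Agent.N848.OL.base_of hk) hkr
        F L hF hL hFf hLf,
    fun α hα => Pool.Agent.N848.OL.f5 α hα⟩

end Pool.Agent.Results.MP_fc6b1e_nt.RealCompositesAtEveryPrime
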