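import Pool.Agent.N918.PN.Leo
import Pool.Agent.N918.PN.Seq
import Pool.Agent.Results.MP_fc6b1e_nt.AlmostAllFields

/-!
# The `Σ`-Leopoldt conjecture for ALL members in almost all residue classes modulo `p ^ k`, along random orbits and
# along metric sequences, for families with `d` parameters

For integers `a_1, …, a_d` let `F = ℚ(w)`, `∏ (w - a_i²) = 1`. `Good p a` (see `AlmostAllFields.lean`): the fields `F`
and, for every imaginary quadratic field `k`, fields `K ⊇ F k` exist; every such `F` is totally real of degree `d`; `w`
is neither a square in `F` nor in any totally complex quadratic extension `K` of `F`; and for EVERY totally complex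
quadratic extension `K` of `F`, for `H = K(√w)`, the `Σ`-Leopoldt statement holds for the prime `p`, for every CM type
`S` of `K` with values in `ℂ_p` and every character `χ` of `Gal(H/K)`.

**Theorem.** (1) For every prime `p`, every degree `d ≥ 1` and every `ε > 0` there is `k` such that all but the
proportion `ε` of the residue classes modulo `p ^ k` contain NO vector `a`, of any size, which is not good (`PNull`). So
there is an open set of full Haar measure in `ℤ_p ^ d` such that ALL the integral vectors in this set are good.

(2) Random orbits: let `s_0, …, s_m ∈ SL_r(ℤ)`, `r ≥ 2`, generate `SL_r(ℤ/q)` for all `q` prime to some `q₀` (`Walk`; by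
strong approximation all finite sets generating a Zariski dense subgroup, possibly of infinite index, are allowed), and
let `v ∈ ℤ^r`. Almost surely, for ALL odd primes `p` that divide neither `q₀` nor all coordinates of `v`, ALL degrees `d`
and ALL choices `σ` of `d` different coordinates: the times `n` at which the vector of these coordinates of
`c n = s_(w (n-1)) ⋯ s_(w 0) v` is not good have density zero.

(3) Metric sequences: for any Koksma sequences `f_{i,0}, f_{i,1}, …` on intervals `[a_i, b_i]`, for almost all `α` in the
box the same holds for `c n = (⌊f_{i,n}(α_i)⌋)_i`, for ALL primes `p`, all degrees and all choices of the coordinates.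

(4) The same holds for almost all real vectors `α` and `c n = (⌊a_{i,n} α_i⌋)_i`, for ARBITRARY real numbers `a_{i,n}` with
`|a_{i,m} - a_{i,n}| ≥ δ > 0`, `m ≠ n`, in particular for every sequence of different integers, however sparse.

In `AlmostAllFields` (helper924) the proportion of the exceptions in boxes and along sequences which are uniformly
distributed modulo all integers is shown to tend to zero. A set of density zero can be dense in `ℤ_p ^ d`; the random
orbits are not uniformly distributed modulo the integers (they consist of vectors which are primitive if `v` is).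

Proof. The `Σ`-Leopoldt statement follows from Leopoldt's conjecture for the totally real field `ℚ(√w)`. The
exceptional vectors are, up to vectors with coordinates close to each other or to `0`, in the union of the zero sets
of finitely many nonzero power series over `ℤ_p` (`Pool.Agent.N924.LP`, helper924), and these are contained in few
classes modulo a power of `p`. The random walk on the vectors modulo `p ^ k` has frequencies at most twice the
uniform ones (`Pool.Agent.N763.SC.Seq`, helper763); engines: `Pool.Agent.N24.RW` (helpers 24, 123, 195, 300, 543, 765) and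
`Pool.Agent.N24.KM` (helpers 24, 344, 617, 199, 764, 432, 286).
-/

set_option autoImplicit false

namespace Pool.Agent.Results.MP_fc6b1e_nt.ResidueClassesAndOrbits

open MeasureTheory
open Pool.Agent.Results.MP_fc6b1e_nt.AlmostAllFields (Good good_of)
open Pool.Agent.N24.RW (Walk orb words)
open Pool.Agent.N24.KM (Koksma Rarely)
open Pool.Agent.N918.PN (PNull PNull.pull pnull_sym orbit_rarely metric_rarely linear_rarely)

/-- The vectors with `r` coordinates for which the vector of the coordinates `σ i` is not good. -/
def Bad (p : ℕ) [Fact p.Prime] {d r : ℕ} (σ : Fin d → Fin r) : Set (Fin r → ℤ) :=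
  {x | ¬ Good p (fun i => x (σ i))}

theorem pnull_bad (p : ℕ) [hp : Fact p.Prime] (d : ℕ) (hd : 1 ≤ d) :
    PNull p {a : Fin d → ℤ | ¬ Good p a} := by
  refine (pnull_sym p hd).mono ?_ hp.out.pos
  intro x h2 h
  exact h2 (good_of p hd x h)

theorem pnull_pull (p : ℕ) [hp : Fact p.Prime] {d r : ℕ} (hd : 1 ≤ d) (σ : Fin d → Fin r)
    (hσ : Function.Injective σ) : PNull p (Bad p σ) :=
  (pnull_bad p d hd).pull hp.out.pos σ hσ

/-- **Theorem.** -/
theorem result :
    (∀ (p : ℕ) [Fact p.Prime] (d : ℕ), 1 ≤ d → PNull p {a : Fin d → ℤ | ¬ Good p a}) ∧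
    (∀ r : ℕ, 2 ≤ r → ∀ (W : Walk (Fin r)) (v : Fin r → ℤ), ∀ᵐ w ∂(words W.m),
      ∀ (p : ℕ) [Fact p.Prime], p ≠ 2 → ¬ p ∣ W.q₀ → (∃ i, ¬ (p : ℤ) ∣ v i) →
        ∀ d : ℕ, 1 ≤ d → ∀ σ : Fin d → Fin r, Function.Injective σ →
          Rarely (orb W v w) (Bad p σ)) ∧
    (∀ (r : ℕ) (a b : Fin r → ℝ) (f : Fin r → ℕ → ℝ → ℝ), (∀ i, a i < b i) →
      (∀ i, Koksma (a i) (b i) (f i)) → ∀ᵐ α : Fin r → ℝ, (∀ i, α i ∈ Set.Icc (a i) (b i)) →
      ∀ (p : ℕ) [Fact p.Prime] (d : ℕ), 1 ≤ d → ∀ σ : Fin d → Fin r,
        Function.Injective σ → Rarely (fun n i => ⌊f i n (α i)⌋) (Bad p σ)) ∧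
    (∀ (r : ℕ) (a : Fin r → ℕ → ℝ) (δ : ℝ), 0 < δ → (∀ i m n, m ≠ n → δ ≤ |a i m - a i n|) →
      ∀ᵐ α : Fin r → ℝ, ∀ (p : ℕ) [Fact p.Prime] (d : ℕ), 1 ≤ d → ∀ σ : Fin d → Fin r,
        Function.Injective σ → Rarely (fun n i => ⌊a i n * α i⌋) (Bad p σ)) := by
  refine ⟨fun p hp d hd => pnull_bad p d hd, fun r hr W v => ?_, fun r a b f hab hf => ?_,
    fun r a δ hδ ha => ?_⟩
  · filter_upwards [orbit_rarely hr W v] with w hw p hp hp2 hq hi d hd σ hσ
    exact hw p hp.out hp2 hq hi _ (pnull_pull p hd σ hσ)
  · filter_upwards [metric_rarely a b f hab hf] with α hα hbox p hp d hd σ hσ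
    exact hα hbox p hp.out _ (pnull_pull p hd σ hσ)
  · filter_upwards [linear_rarely a δ hδ ha] with α hα p hp d hd σ hσ
    exact hα p hp.out _ (pnull_pull p hd σ hσ)

end Pool.Agent.Results.MP_fc6b1e_nt.ResidueClassesAndOrbits
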