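import Pool.Agent.N760.IT.C
import Pool.Agent.Results.MP_fc6b1e_nt.ManyPrimes
import Pool.Agent.Results.MP_fc6b1e_nt.AlmostAllFields

/-!
# The `Σ`-Leopoldt conjecture for all primes up to a power of the parameter, near the members of almost all orbits of
# Euler's function

Let `φ_i` be the `i`-th iterate of Euler's function, `φ_0(m) = m`. Let `a_1, …, a_d` be nonzero integers of different
absolute values. For an integer `t` let `F = ℚ(w)`, `∏ (w - a_i² t²) = 1`. `Good p (a t)` (see `AlmostAllFields.lean`): the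
fields `F` and, for every imaginary quadratic field `k`, fields `K ⊇ F k` exist; every such `F` is totally real of degree
`d`; `w` is neither a square in `F` nor in any totally complex quadratic extension `K` of `F`; and for EVERY totally
complex quadratic extension `K` of `F`, for `H = K(√w)`, the `Σ`-Leopoldt statement holds for the prime `p`, every CM
type `S` of `K` and every character of `Gal(H/K)`.

Let `f` be a positive multiplicative function of at most polynomial growth such that `f q ≤ M q` for the large primes `q`,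
with different values at different large primes; for example the identity, Euler's function or the sum of the divisors.
Let `α > 0`, `e ≥ 1`, and let `κ, ρ ≥ 0` be numbers with `2 e ρ + κ < 1`.

**Theorem.** There is a nonzero polynomial `Δ`, depending on the `a_i` only, and there is a function `R(m)` tending to
infinity such that for almost all `m` the following is true for ALL `i ≤ R(m)`, with `v = f(φ_i(m))`, ALL integers `t` with
`||t| - α v^e| ≤ v^κ` and ALL primes `p ≤ |t|^ρ` which do not divide `Δ(t)`: `Good p (a t)`. More generally `G v` takes the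
place of `α v^e`, where `G` is any function with steps bounded below by a positive constant and growth at most `v^e`.

The iterates of Euler's function are not multiplicative, their values form a thin set and are taken with very large
multiplicities, and so this does not follow from the size of the exceptional set alone. `MultiplicativeValues` of this
problem (helper918) is the case `i = 0`, with a bound for the number of the exceptional `m`.

Proof. The starting theorem `ManyPrimes` of this problem bounds the number of the parameters with a failure for a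
prime `p ≤ P` by `C₀ + (2 d - 1)² P²`; so the integers `t` with a failure for some `p ≤ |t|^ρ` form a set with
`O(X^(2 ρ))` elements up to `X` (the three statements `Exceptional`, `many`, `count` below are those of helper918). The tool
for the orbits of Euler's function is `Pool.Agent.N760.IT` (helper760), with `Pool.Agent.N733.TG` (helper733) and
`Pool.Agent.N826.IT` (helper826).
-/

set_option autoImplicit false

namespace Pool.Agent.Results.MP_fc6b1e_nt.TotientOrbits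

open Filter
open Pool.Agent.Results.MP_fc6b1e_nt.AlmostAllFields (Good)
open Pool.Agent.N733.TG (LM Expanding lm_totient lm_sigma expanding_pow)
open Pool.Agent.N760.IT (orb lm_id)
open Pool.Agent.N826.IT.Orb (AlmostAll almostAll_mono)

/-- The parameters `t` for which there is a failure at some prime `p ≤ |t| ^ ρ` which does not divide `Δ(t)`. -/
def Exceptional {d : ℕ} (a : Fin d → ℤ) (Δ : Polynomial ℤ) (ρ : ℝ) : Set ℤ :=
  {t | ¬ ∀ (p : ℕ) [Fact p.Prime], (p : ℝ) ≤ |(t : ℝ)| ^ ρ → ¬ (p : ℤ) ∣ Δ.eval t →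
    Good p (fun i => a i * t)}

/-- the starting theorem -/
theorem many (d : ℕ) (hd : 1 ≤ d) (a : Fin d → ℤ) (ha0 : ∀ i, a i ≠ 0)
    (ha : Function.Injective fun i => |a i|) :
    ∃ (Δ : Polynomial ℤ) (C₀ : ℕ), Δ ≠ 0 ∧ ∀ P : ℕ, ∃ S₀ : Finset ℤ,
      S₀.card ≤ C₀ + (2 * d - 1) ^ 2 * P ^ 2 ∧ ∀ t : ℤ, t ∉ S₀ →
        ∀ (p : ℕ) [Fact p.Prime], p ≤ P → ¬ (p : ℤ) ∣ Δ.eval t → Good p (fun i => a i * t) := by
  obtain ⟨Δ, C₀, hΔ, h⟩ := Pool.Agent.Results.MP_fc6b1e_nt.ManyPrimes.result d hd a ha0 ha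
  refine ⟨Δ, C₀, hΔ, fun P => ?_⟩
  obtain ⟨S₀, hS₀, hS⟩ := h P
  refine ⟨S₀, hS₀, fun t ht p hp hpP hnd => ?_⟩
  obtain ⟨h1, h2⟩ := hS t ht
  refine ⟨h1, ?_⟩
  intro F _ _ w hw hgen
  obtain ⟨g1, g2, g3, g4⟩ := h2 F w hw hgen
  refine ⟨g1, g2, g3, ?_⟩
  intro K _ _ _ _ hFK
  obtain ⟨g5, g6⟩ := g4 K hFK
  refine ⟨g5, ?_⟩
  intro H _ _ _ θ hKH hθ S hS' χ
  exact g6 H θ hKH hθ p hpP hnd S hS' χ

/-- the number of the exceptional parameters -/
theorem count {d : ℕ} (a : Fin d → ℤ) (Δ : Polynomial ℤ) (C₀ : ℕ)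
    (h : ∀ P : ℕ, ∃ S₀ : Finset ℤ, S₀.card ≤ C₀ + (2 * d - 1) ^ 2 * P ^ 2 ∧ ∀ t : ℤ, t ∉ S₀ →
      ∀ (p : ℕ) [Fact p.Prime], p ≤ P → ¬ (p : ℤ) ∣ Δ.eval t → Good p (fun i => a i * t))
    (ρ : ℝ) (hρ : 0 ≤ ρ) (ε : ℝ) (hε : 0 < ε) : ∃ C : ℝ, ∀ X : ℝ, 1 ≤ X →
      {t | t ∈ Exceptional a Δ ρ ∧ |(t : ℝ)| ≤ X}.Finite ∧
        ({t | t ∈ Exceptional a Δ ρ ∧ |(t : ℝ)| ≤ X}.ncard : ℝ) ≤ C * X ^ (2 * ρ + ε) := by
  refine ⟨C₀ + (2 * d - 1 : ℕ) ^ 2, fun X hX => ?_⟩
  have hX0 : (0 : ℝ) < X := by linarith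
  obtain ⟨S₀, hS₀, hS⟩ := h ⌊X ^ ρ⌋₊
  have hsub : {t | t ∈ Exceptional a Δ ρ ∧ |(t : ℝ)| ≤ X} ⊆ (S₀ : Set ℤ) := by
    rintro t ⟨ht, htX⟩
    rw [Finset.mem_coe]
    by_contra hno
    apply ht
    intro p hp hpt hnd
    refine hS t hno p (Nat.le_floor (hpt.trans ?_)) hnd
    exact Real.rpow_le_rpow (abs_nonneg _) htX hρ
  refine ⟨S₀.finite_toSet.subset hsub, ?_⟩
  have h1 := Set.ncard_le_ncard hsub S₀.finite_toSet
  rw [Set.ncard_coe_finset] at h1
  have h2 : ({t | t ∈ Exceptional a Δ ρ ∧ |(t : ℝ)| ≤ X}.ncard : ℝ) ≤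
      C₀ + (2 * d - 1 : ℕ) ^ 2 * ((⌊X ^ ρ⌋₊ : ℕ) : ℝ) ^ 2 := by
    exact_mod_cast h1.trans hS₀
  have h3 : ((⌊X ^ ρ⌋₊ : ℕ) : ℝ) ≤ X ^ ρ := Nat.floor_le (by positivity)
  have h4 : ((⌊X ^ ρ⌋₊ : ℕ) : ℝ) ^ 2 ≤ X ^ (2 * ρ) := by
    calc ((⌊X ^ ρ⌋₊ : ℕ) : ℝ) ^ 2 ≤ (X ^ ρ) ^ 2 := pow_le_pow_left₀ (Nat.cast_nonneg _) h3 2
      _ = X ^ (2 * ρ) := by
          rw [← Real.rpow_natCast, ← Real.rpow_mul hX0.le]
          congr 1
          push_cast
          ring
  have h5 : X ^ (2 * ρ) ≤ X ^ (2 * ρ + ε) := Real.rpow_le_rpow_of_exponent_le hX (by linarith)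
  have h6 : 1 ≤ X ^ (2 * ρ + ε) := Real.one_le_rpow hX (by linarith)
  calc _ ≤ (C₀ : ℝ) + (2 * d - 1 : ℕ) ^ 2 * ((⌊X ^ ρ⌋₊ : ℕ) : ℝ) ^ 2 := h2
    _ ≤ (C₀ : ℝ) * X ^ (2 * ρ + ε) + (2 * d - 1 : ℕ) ^ 2 * X ^ (2 * ρ + ε) := by
        refine add_le_add ?_ ?_
        · calc (C₀ : ℝ) = C₀ * 1 := (mul_one _).symm
            _ ≤ C₀ * X ^ (2 * ρ + ε) := mul_le_mul_of_nonneg_left h6 (Nat.cast_nonneg _)
        · exact mul_le_mul_of_nonneg_left (h4.trans h5) (by positivity)
    _ = _ := by ring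

/-- **Theorem.** Let `a_1, …, a_d`, `d ≥ 1`, be nonzero integers of different absolute values. There is a nonzero
polynomial `Δ` such that for all `f` which are multiplicative and positive, of at most polynomial growth, with `f q ≤ M q`
at the large primes and injective there, all `G` with steps `≥ a > 0` and growth at most `v^e` and all `ρ, κ ≥ 0` with
`2 e ρ + κ < 1` there is `R(m)` tending to infinity such that for almost all `m`, for ALL `i ≤ R(m)`, with
`v = f(φ_i(m))` (`orb f i m`), for ALL integers `t` with `||t| - G v| ≤ v^κ` and ALL primes `p ≤ |t|^ρ` which do not divide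
`Δ(t)` the parameters `a_i t` are good at `p`. The identity, Euler's function and the sum of the divisors are examples of such
functions `f`, and `α v^e` with `α > 0`, `e ≥ 1` is an example of `G`. -/
theorem result :
    (∀ (d : ℕ), 1 ≤ d → ∀ a : Fin d → ℤ, (∀ i, a i ≠ 0) → (Function.Injective fun i => |a i|) →
      ∃ Δ : Polynomial ℤ, Δ ≠ 0 ∧ ∀ f : ℕ → ℕ, LM f → ∀ (G : ℕ → ℝ) (e : ℝ), Expanding G e →
        ∀ ρ κ : ℝ, 0 ≤ ρ → 0 ≤ κ → 2 * e * ρ + κ < 1 →
        ∃ R : ℕ → ℕ, Tendsto R atTop atTop ∧ AlmostAll (fun m => ∀ i ≤ R m,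
          ∀ t : ℤ, |(|(t : ℝ)|) - G (orb f i m)| ≤ (orb f i m : ℝ) ^ κ →
          ∀ (p : ℕ) [Fact p.Prime], (p : ℝ) ≤ |(t : ℝ)| ^ ρ → ¬ (p : ℤ) ∣ Δ.eval t →
            Good p (fun j => a j * t))) ∧
    (LM (fun m => m) ∧ LM Nat.totient ∧ LM (fun m => ∑ d ∈ m.divisors, d)) ∧
    ∀ α e : ℝ, 0 < α → 1 ≤ e → Expanding (fun v => α * (v : ℝ) ^ e) e := by
  refine ⟨fun d hd a ha0 ha => ?_, ⟨lm_id, lm_totient, lm_sigma⟩, fun α d hα hd => expanding_pow hα hd⟩
  obtain ⟨Δ, C₀, hΔ, h⟩ := many d hd a ha0 ha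
  refine ⟨Δ, hΔ, fun f hf G e hG ρ κ hρ hκ h1 => ?_⟩
  obtain ⟨R, hR, hR2⟩ := Pool.Agent.N760.IT.orbit_windows (Exceptional a Δ ρ) (fun t => |(t : ℝ)|) hf hG
    (s := 2 * ρ) (κ := κ) (by positivity) hκ (by linarith) (fun ε hε => count a Δ C₀ h ρ hρ ε hε)
  refine ⟨R, hR, almostAll_mono hR2 (fun m hm i hi t hw => ?_)⟩
  by_contra hcon
  exact hm i hi t hcon hw

end Pool.Agent.Results.MP_fc6b1e_nt.TotientOrbits
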